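import Mathlib

/-!
Definitions for MP_c7dfba_nt (Lang's conjecture on nonreal fields over real closed fields).

A form of degree `e` on an `F`-vector space `V` is the diagonal restriction `x ↦ B (x, …, x)` of a
multilinear map `B` of arity `e`.
-/

namespace Helper70.Lang

open scoped BigOperators

universe u v

/-- The field `F` is a `C_j`-field (system version), in coordinate free form: any system of forms
`x ↦ B i (x, …, x)` of degrees `e i ≥ 1` on an `F`-vector space `V` of dimension bigger than
`∑ (e i) ^ j` has a nontrivial common zero. -/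
def CProp (F : Type u) [Field F] (j : ℕ) : Prop :=
  ∀ (V : Type u) [AddCommGroup V] [Module F V] [FiniteDimensional F V]
    (ι : Type) [Fintype ι] (e : ι → ℕ)
    (B : ∀ i, MultilinearMap F (fun _ : Fin (e i) => V) F),
    (∀ i, 1 ≤ e i) → (∑ i, (e i) ^ j) < Module.finrank F V →
      ∃ x : V, x ≠ 0 ∧ ∀ i, B i (fun _ => x) = 0

/-- Every diagonal form of degree `d` in `n` variables over `K` has a nontrivial zero. -/
def DiagBound (K : Type u) [Field K] (d n : ℕ) : Prop :=
  ∀ a : Fin n → K, ∃ x : Fin n → K, x ≠ 0 ∧ ∑ j, a j * x j ^ d = 0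

/-- Any `r` forms of degrees in `[1, d]` on a `K`-vector space of dimension at least `N` have
a nontrivial common zero. -/
def SysBound (K : Type u) [Field K] (d r N : ℕ) : Prop :=
  ∀ (V : Type u) [AddCommGroup V] [Module K V] [FiniteDimensional K V]
    (e : Fin r → ℕ) (B : ∀ i, MultilinearMap K (fun _ : Fin (e i) => V) K),
    (∀ i, 1 ≤ e i ∧ e i ≤ d) → N ≤ Module.finrank K V →
      ∃ x : V, x ≠ 0 ∧ ∀ i, B i (fun _ => x) = 0

/-- The explicit bound for diagonal forms: `Phi i 0 d = d ^ i + 1`,
`Phi i (s + 1) d = ∏_{e = 1}^{d} Phi i s (2 lcm(d, e))`. -/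
def Phi (i : ℕ) : ℕ → ℕ → ℕ
  | 0, d => d ^ i + 1
  | s + 1, d => ∏ e ∈ Finset.range d, Phi i s (2 * Nat.lcm d (e + 1))

end Helper70.Lang
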