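import Pool.Agent.Helper70.Lang.Key

/-!
Descent of diagonal bounds along a quadratic extension `L / K` in which `-1` is a norm.
-/

namespace Helper70.Lang

open scoped BigOperators

universe u

theorem sum_even {M : Type*} [AddCommMonoid M] (f : ℕ → M) (c : ℕ)
    (hodd : ∀ k, k % 2 = 1 → f k = 0) :
    ∑ k ∈ Finset.range (2 * c + 1), f k = ∑ b ∈ Finset.range (c + 1), f (2 * b) := by
  induction c with
  | zero => simp
  | succ c ih =>
    rw [show 2 * (c + 1) + 1 = 2 * c + 1 + 1 + 1 by ring, Finset.sum_range_succ,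
      Finset.sum_range_succ, ih, hodd (2 * c + 1) (by omega), add_zero,
      Finset.sum_range_succ _ (c + 1)]
    rfl

section Quad

variable {K L : Type u} [Field K] [Field L] [Algebra K L]

theorem binom_expand (x y u : L) (hu : u ≠ 0) (k : ℕ) :
    (x * u + y * u⁻¹) ^ k = ∑ l ∈ Finset.range (k + 1),
      (k.choose l : L) * x ^ l * y ^ (k - l) * u ^ (2 * (l : ℤ) - k) := by
  rw [add_pow]
  refine Finset.sum_congr rfl fun l hl => ?_
  have hlk : l ≤ k := by
    have := Finset.mem_range.1 hl
    omega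
  have h1 : u ^ (2 * (l : ℤ) - k) = u ^ l * (u⁻¹) ^ (k - l) := by
    rw [inv_pow, ← zpow_natCast, ← zpow_natCast u (k - l), ← zpow_neg, ← zpow_add₀ hu]
    congr 1
    push_cast [hlk]
    ring
  rw [h1, mul_pow, mul_pow]
  ring

theorem trinom_expand (x y u : L) (hu : u ≠ 0) (d : ℕ) :
    (1 + (x * u + y * u⁻¹)) ^ d = ∑ k ∈ Finset.range (d + 1), ∑ l ∈ Finset.range (k + 1),
      (d.choose k : L) * ((k.choose l : L) * x ^ l * y ^ (k - l)) * u ^ (2 * (l : ℤ) - k) := by
  rw [add_comm, add_pow]
  refine Finset.sum_congr rfl fun k _ => ?_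
  rw [one_pow, mul_one, binom_expand x y u hu, Finset.sum_mul]
  refine Finset.sum_congr rfl fun l _ => ?_
  ring

/-- the Laurent moments -/
noncomputable def mom {ι : Type} [Fintype ι] (w : ι → K) (U : ι → L) (e : ℤ) : L :=
  ∑ j, algebraMap K L (w j) * U j ^ e

theorem Conj.inv (C : Conj K L) {u : L} (hu : u * C.σ u = 1) : C.σ u = u⁻¹ :=
  (inv_eq_of_mul_eq_one_right hu).symm

theorem Conj.mom_neg (C : Conj K L) {ι : Type} [Fintype ι] (w : ι → K) (U : ι → L)
    (hU : ∀ j, U j * C.σ (U j) = 1) (e : ℤ) : mom w U (-e) = C.σ (mom w U e) := by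
  unfold mom
  rw [map_sum]
  refine Finset.sum_congr rfl fun j _ => ?_
  rw [map_mul, C.fixK, map_zpow₀, C.inv (hU j), inv_zpow', zpow_neg]

theorem Conj.mom_zero (C : Conj K L) {ι : Type} [Fintype ι] (w : ι → K) (U : ι → L)
    (hU : ∀ j, U j * C.σ (U j) = 1) {d : ℕ}
    (h : ∀ e : ℕ, 1 ≤ e → e ≤ d → ∑ j, algebraMap K L (w j) * U j ^ e = 0)
    (e : ℤ) (he : e ≠ 0) (h1 : -(d : ℤ) ≤ e) (h2 : e ≤ d) : mom w U e = 0 := by
  rcases lt_or_gt_of_ne he with hneg | hpos
  · obtain ⟨n, hn⟩ := Int.eq_ofNat_of_zero_le (show 0 ≤ -e by omega)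
    have : e = -(n : ℤ) := by omega
    rw [this, C.mom_neg w U hU]
    have h3 : mom w U (n : ℤ) = 0 := by
      unfold mom
      simp only [zpow_natCast]
      exact h n (by omega) (by omega)
    rw [h3, map_zero]
  · obtain ⟨n, hn⟩ := Int.eq_ofNat_of_zero_le (show 0 ≤ e by omega)
    rw [hn]
    unfold mom
    simp only [zpow_natCast]
    exact h n (by omega) (by omega)

theorem Conj.even_zero (C : Conj K L) {ι : Type} [Fintype ι] (w : ι → K) (U : ι → L)
    (hU : ∀ j, U j * C.σ (U j) = 1) {c : ℕ}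
    (h : ∀ e : ℕ, 1 ≤ e → e ≤ 2 * c → ∑ j, algebraMap K L (w j) * U j ^ e = 0) (x y : L) :
    ∑ j, algebraMap K L (w j) * (1 + (x * U j + y * (U j)⁻¹)) ^ (2 * c) =
      (∑ b ∈ Finset.range (c + 1), ((2 * c).choose (2 * b) : L) * ((2 * b).choose b : L) *
        (x * y) ^ b) * mom w U 0 := by
  have hU0 : ∀ j, U j ≠ 0 := fun j h0 => by
    have := hU j
    rw [h0, zero_mul] at this
    exact zero_ne_one this
  have h1 : ∑ j, algebraMap K L (w j) * (1 + (x * U j + y * (U j)⁻¹)) ^ (2 * c) =
      ∑ k ∈ Finset.range (2 * c + 1), ∑ l ∈ Finset.range (k + 1),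
        ((2 * c).choose k : L) * ((k.choose l : L) * x ^ l * y ^ (k - l)) *
          mom w U (2 * (l : ℤ) - k) := by
    simp_rw [trinom_expand x y _ (hU0 _), mom, Finset.mul_sum]
    rw [Finset.sum_comm]
    refine Finset.sum_congr rfl fun k _ => ?_
    rw [Finset.sum_comm]
    refine Finset.sum_congr rfl fun l _ => ?_
    refine Finset.sum_congr rfl fun j _ => ?_
    ring
  rw [h1, sum_even _ c, Finset.sum_mul]
  · refine Finset.sum_congr rfl fun b hb => ?_
    have hbc := Finset.mem_range.1 hb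
    rw [Finset.sum_eq_single b]
    · rw [show 2 * (b : ℤ) - ((2 * b : ℕ) : ℤ) = 0 by push_cast; ring,
        show 2 * b - b = b by omega, mul_pow]
      ring
    · intro l hl hlb
      have hl' := Finset.mem_range.1 hl
      rw [C.mom_zero w U hU h _ (by push_cast; omega) (by push_cast; omega) (by push_cast; omega),
        mul_zero]
    · intro hb'
      exact absurd (Finset.mem_range.2 (by omega)) hb'
  · intro k hk
    by_cases hkc : k ≤ 2 * c
    · refine Finset.sum_eq_zero fun l hl => ?_
      have hl' := Finset.mem_range.1 hl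
      rw [C.mom_zero w U hU h _ (by omega) (by push_cast; omega) (by push_cast; omega), mul_zero]
    · refine Finset.sum_eq_zero fun l hl => ?_
      rw [Nat.choose_eq_zero_of_lt (by omega)]
      simp

theorem Conj.odd_zero (C : Conj K L) {ι : Type} [Fintype ι] (w : ι → K) (U : ι → L)
    (hU : ∀ j, U j * C.σ (U j) = 1) {d : ℕ} (hd : d % 2 = 1)
    (h : ∀ e : ℕ, 1 ≤ e → e ≤ d → ∑ j, algebraMap K L (w j) * U j ^ e = 0) (x y : L) :
    ∑ j, algebraMap K L (w j) * (x * U j + y * (U j)⁻¹) ^ d = 0 := by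
  have hU0 : ∀ j, U j ≠ 0 := fun j h0 => by
    have := hU j
    rw [h0, zero_mul] at this
    exact zero_ne_one this
  have h1 : ∑ j, algebraMap K L (w j) * (x * U j + y * (U j)⁻¹) ^ d =
      ∑ l ∈ Finset.range (d + 1), ((d.choose l : L) * x ^ l * y ^ (d - l)) *
          mom w U (2 * (l : ℤ) - d) := by
    simp_rw [binom_expand x y _ (hU0 _), mom, Finset.mul_sum]
    rw [Finset.sum_comm]
    refine Finset.sum_congr rfl fun k _ => ?_
    refine Finset.sum_congr rfl fun l _ => ?_
    ring
  rw [h1]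
  refine Finset.sum_eq_zero fun l hl => ?_
  have hl' := Finset.mem_range.1 hl
  rw [C.mom_zero w U hU h _ (by omega) (by omega) (by omega), mul_zero]

/-- Descent of diagonal bounds. -/
theorem Conj.descent [CharZero K] (C : Conj K L) (ρ : L) (hρ : ρ * C.σ ρ = -1)
    (φ : ℕ → ℕ) (hφ : ∀ e, 1 ≤ e → DiagBound L e (φ e))
    (hroot : ∀ c : ℕ, 1 ≤ c → ∃ s : K, ∑ b ∈ Finset.range (c + 1),
      ((2 * c).choose (2 * b) : K) * ((2 * b).choose b : K) * (-(s ^ 2)) ^ b = 0)
    {d : ℕ} (hd : 1 ≤ d) :
    DiagBound K d (∏ e ∈ Finset.range d, φ (2 * Nat.lcm d (e + 1))) := by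
  intro a
  obtain ⟨T, U, hT, hU, hS⟩ := C.key φ hφ hd d (Fin _) (Fintype.card_fin _) a
  have hU0 : ∀ j, U j ≠ 0 := fun j h0 => by
    have := hU j
    rw [h0, zero_mul] at this
    exact zero_ne_one this
  have hinj : Function.Injective (algebraMap K L) := (algebraMap K L).injective
  have : CharZero L := charZero_of_injective_algebraMap hinj
  obtain ⟨j₀, hj₀⟩ : ∃ j, T j ≠ 0 := by
    by_contra hcon
    push Not at hcon
    exact hT (funext hcon)
  -- traces
  have htr : ∀ (z : L) (j : _), ∃ t : K, algebraMap K L t = z * U j + C.σ z * (U j)⁻¹ := by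
    intro z j
    obtain ⟨t, ht⟩ := C.fix (z * U j + C.σ (z * U j)) (by rw [map_add, C.invol]; ring)
    refine ⟨t, ?_⟩
    rw [ht, map_mul, C.inv (hU j)]
  rcases Nat.even_or_odd' d with ⟨c, hc | hc⟩
  · -- even degree
    subst hc
    have hc1 : 1 ≤ c := by omega
    obtain ⟨s, hs⟩ := hroot c hc1
    choose t ht using htr ρ
    have main : ∀ s' : K, s' ^ 2 = s ^ 2 →
        ∑ j, a j * (T j * (1 + s' * t j)) ^ (2 * c) = 0 := by
      intro s' hs'
      apply hinj
      rw [map_sum, map_zero]
      have h2 := C.even_zero (fun j => a j * T j ^ (2 * c)) U hU hS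
        (algebraMap K L s' * ρ) (algebraMap K L s' * C.σ ρ)
      have h3 : ∑ b ∈ Finset.range (c + 1), ((2 * c).choose (2 * b) : L) *
          ((2 * b).choose b : L) *
            ((algebraMap K L s' * ρ) * (algebraMap K L s' * C.σ ρ)) ^ b = 0 := by
        have h4 : (algebraMap K L s' * ρ) * (algebraMap K L s' * C.σ ρ) =
            algebraMap K L (-(s ^ 2)) := by
          rw [← hs', map_neg, map_pow]
          linear_combination (algebraMap K L s') ^ 2 * hρ
        rw [h4]
        have := congrArg (algebraMap K L) hs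
        rw [map_sum, map_zero] at this
        rw [← this]
        refine Finset.sum_congr rfl fun b _ => ?_
        simp
      rw [h3, zero_mul] at h2
      rw [← h2]
      refine Finset.sum_congr rfl fun j _ => ?_
      simp only [map_mul, map_pow, map_add, map_one, ht, mul_pow]
      ring
    by_cases h0 : 1 + s * t j₀ = 0
    · refine ⟨fun j => T j * (1 + (-s) * t j), ?_, main (-s) (by ring)⟩
      intro hz
      have := congrFun hz j₀
      simp only [Pi.zero_apply, mul_eq_zero] at this
      rcases this with h | h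
      · exact hj₀ h
      · have h2 : (2 : K) = 0 := by linear_combination h0 + h
        exact two_ne_zero h2
    · refine ⟨fun j => T j * (1 + s * t j), ?_, main s rfl⟩
      intro hz
      have := congrFun hz j₀
      simp only [Pi.zero_apply, mul_eq_zero] at this
      exact this.elim hj₀ h0
  · -- odd degree
    subst hc
    choose t ht using htr (C.σ (U j₀))
    refine ⟨fun j => T j * t j, ?_, ?_⟩
    · intro hz
      have := congrFun hz j₀
      simp only [Pi.zero_apply, mul_eq_zero] at this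
      rcases this with h | h
      · exact hj₀ h
      · have h2 := ht j₀
        rw [h, map_zero, C.invol, mul_inv_cancel₀ (hU0 j₀), mul_comm, hU] at h2
        norm_num at h2
    · apply hinj
      rw [map_sum, map_zero]
      have h2 := C.odd_zero (fun j => a j * T j ^ (2 * c + 1)) U hU (by omega) hS
        (C.σ (U j₀)) (C.σ (C.σ (U j₀)))
      rw [← h2]
      refine Finset.sum_congr rfl fun j _ => ?_
      simp only [map_mul, map_pow, ht, mul_pow]
      ring

end Quad

end Helper70.Lang
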