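import Pool.Agent.Helper70.Lang.Stmts

/-!
The key lemma: torus averaging for diagonal forms, and the descent of diagonal bounds along a
quadratic extension `L / K` in which `-1` is a norm.
-/

namespace Helper70.Lang

open scoped BigOperators

universe u

theorem DiagBound.of_card {K : Type u} [Field K] {d n : ℕ} (h : DiagBound K d n) {ι : Type}
    [Fintype ι] (hι : Fintype.card ι = n) (a : ι → K) :
    ∃ x : ι → K, x ≠ 0 ∧ ∑ j, a j * x j ^ d = 0 := by
  classical
  obtain ⟨x, hx, hs⟩ := h (fun j => a ((Fintype.equivFinOfCardEq hι).symm j))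
  refine ⟨fun j => x (Fintype.equivFinOfCardEq hι j), ?_, ?_⟩
  · intro h0
    apply hx
    funext j
    have := congrFun h0 ((Fintype.equivFinOfCardEq hι).symm j)
    simpa using this
  · rw [← hs]
    refine Fintype.sum_equiv (Fintype.equivFinOfCardEq hι) _ _ ?_
    intro j
    simp

theorem DiagBound.mono {K : Type u} [Field K] {d n m : ℕ} (hd : 1 ≤ d) (h : DiagBound K d n)
    (hnm : n ≤ m) : DiagBound K d m := by
  intro a
  obtain ⟨x, hx, hs⟩ := h (fun j => a (Fin.castLE hnm j))
  refine ⟨fun j => if hj : j.1 < n then x ⟨j.1, hj⟩ else 0, ?_, ?_⟩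
  · intro h0
    apply hx
    funext j
    have := congrFun h0 (Fin.castLE hnm j)
    simpa using this
  · refine Eq.trans ?_ hs
    symm
    refine Finset.sum_of_injOn (fun j => Fin.castLE hnm j)
      (fun _ _ _ _ h => Fin.castLE_injective hnm h) (fun _ _ => Finset.mem_coe.2 (Finset.mem_univ _)) ?_ ?_
    · intro j _ hj
      have : ¬ j.1 < n := by
        intro hlt
        apply hj
        exact ⟨⟨j.1, hlt⟩, by simp, by ext; simp⟩
      simp [this, show d ≠ 0 by omega]
    · intro j _
      simp

section Quad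

variable {K L : Type u} [Field K] [Field L] [Algebra K L]

/-- the data of a quadratic extension with its conjugation -/
structure Conj (K L : Type u) [Field K] [Field L] [Algebra K L] where
  σ : L →+* L
  invol : ∀ x, σ (σ x) = x
  fix : ∀ x, σ x = x → ∃ y : K, algebraMap K L y = x
  fixK : ∀ y : K, σ (algebraMap K L y) = algebraMap K L y

/-- The holomorphic substitution. -/
theorem Conj.subst (C : Conj K L) {d e : ℕ} (hd : 1 ≤ d) (he : 1 ≤ e) (w : L) :
    ∃ (τ : K) (u : L), u * C.σ u = 1 ∧ algebraMap K L (τ ^ d) * u ^ e = w ^ (2 * Nat.lcm d e) ∧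
      (w ≠ 0 → τ ≠ 0) ∧ (w = 0 → τ = 0) := by
  by_cases hw : w = 0
  · refine ⟨0, 1, by simp, ?_, fun h => absurd hw h, fun _ => rfl⟩
    have h1 : d ≠ 0 := by omega
    have h2 : 2 * Nat.lcm d e ≠ 0 := by
      have := Nat.lcm_pos (show 0 < d by omega) (show 0 < e by omega)
      omega
    rw [hw, zero_pow h1, zero_pow h2]
    simp
  · have hσw : C.σ w ≠ 0 := by simpa using hw
    obtain ⟨ν, hν⟩ := C.fix (w * C.σ w) (by rw [map_mul, C.invol]; ring)
    have hν0 : ν ≠ 0 := by
      rintro rfl
      rw [map_zero] at hν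
      exact (mul_ne_zero hw hσw) hν.symm
    obtain ⟨q, hq⟩ := Nat.dvd_lcm_left d e
    obtain ⟨p, hp⟩ := Nat.dvd_lcm_right d e
    refine ⟨ν ^ q, (w / C.σ w) ^ p, ?_, ?_, fun _ => pow_ne_zero _ hν0, fun h => absurd h hw⟩
    · rw [map_pow, ← mul_pow, map_div₀, C.invol]
      field_simp
      simp
    · rw [map_pow, map_pow, hν]
      calc ((w * C.σ w) ^ q) ^ d * ((w / C.σ w) ^ p) ^ e
          = (w * C.σ w) ^ (d * q) * (w / C.σ w) ^ (e * p) := by
            rw [← pow_mul, ← pow_mul, mul_comm q d, mul_comm p e]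
        _ = ((w * C.σ w) * (w / C.σ w)) ^ (Nat.lcm d e) := by
            rw [← hq, ← hp, mul_pow (w * C.σ w)]
        _ = (w ^ 2) ^ (Nat.lcm d e) := by
            congr 1
            field_simp
        _ = w ^ (2 * Nat.lcm d e) := by rw [← pow_mul]

/-- The key lemma. -/
theorem Conj.key (C : Conj K L) (φ : ℕ → ℕ) (hφ : ∀ e, 1 ≤ e → DiagBound L e (φ e)) {d : ℕ}
    (hd : 1 ≤ d) (m : ℕ) :
    ∀ (ι : Type) [Fintype ι] (_ : Fintype.card ι = ∏ e ∈ Finset.range m, φ (2 * Nat.lcm d (e + 1)))
      (a : ι → K), ∃ (T : ι → K) (U : ι → L), T ≠ 0 ∧ (∀ j, U j * C.σ (U j) = 1) ∧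
        ∀ e, 1 ≤ e → e ≤ m → ∑ j, algebraMap K L (a j * T j ^ d) * U j ^ e = 0 := by
  induction m with
  | zero =>
    intro ι _ hι a
    refine ⟨fun _ => 1, fun _ => 1, ?_, by simp, fun e h1 h2 => by omega⟩
    intro h0
    have hc : Fintype.card ι = 1 := by simpa using hι
    obtain ⟨x, -⟩ := Fintype.card_eq_one_iff.1 hc
    have := congrFun h0 x
    simp at this
  | succ m ih =>
    intro ι _ hι a
    classical
    set N := ∏ e ∈ Finset.range m, φ (2 * Nat.lcm d (e + 1)) with hN
    set M := φ (2 * Nat.lcm d (m + 1)) with hM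
    have hcard : Fintype.card ι = Fintype.card (Fin M × Fin N) := by
      rw [hι, Finset.prod_range_succ, Fintype.card_prod, Fintype.card_fin, Fintype.card_fin,
        mul_comm]
    let E : ι ≃ Fin M × Fin N := Fintype.equivOfCardEq hcard
    have hblock : ∀ k : Fin M, ∃ (T : Fin N → K) (U : Fin N → L), T ≠ 0 ∧
        (∀ j, U j * C.σ (U j) = 1) ∧ ∀ e, 1 ≤ e → e ≤ m →
          ∑ j, algebraMap K L (a (E.symm (k, j)) * T j ^ d) * U j ^ e = 0 := by
      intro k
      exact ih (Fin N) (Fintype.card_fin N) (fun j => a (E.symm (k, j)))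
    choose T U hT hU hTU using hblock
    let γ : Fin M → L := fun k =>
      ∑ j, algebraMap K L (a (E.symm (k, j)) * T k j ^ d) * U k j ^ (m + 1)
    obtain ⟨w, hw, hws⟩ := hφ (2 * Nat.lcm d (m + 1)) (by
      have := Nat.lcm_pos (show 0 < d by omega) (show 0 < m + 1 by omega)
      omega) γ
    have hsub := fun k => C.subst hd (show 1 ≤ m + 1 by omega) (w k)
    choose τ v hv1 hv2 hv3 hv4 using hsub
    refine ⟨fun i => τ (E i).1 * T (E i).1 (E i).2, fun i => v (E i).1 * U (E i).1 (E i).2, ?_, ?_, ?_⟩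
    · obtain ⟨k, hk⟩ : ∃ k, w k ≠ 0 := by
        by_contra hcon
        push Not at hcon
        exact hw (funext hcon)
      obtain ⟨j, hj⟩ : ∃ j, T k j ≠ 0 := by
        by_contra hcon
        push Not at hcon
        exact hT k (funext hcon)
      intro h0
      have := congrFun h0 (E.symm (k, j))
      simp only [Equiv.apply_symm_apply, Pi.zero_apply, mul_eq_zero] at this
      exact this.elim (hv3 k hk) hj
    · intro i
      rw [map_mul]
      calc v (E i).1 * U (E i).1 (E i).2 * (C.σ (v (E i).1) * C.σ (U (E i).1 (E i).2))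
          = (v (E i).1 * C.σ (v (E i).1)) * (U (E i).1 (E i).2 * C.σ (U (E i).1 (E i).2)) := by
            ring
        _ = 1 := by rw [hv1, hU, one_mul]
    · intro e he1 he2
      have hsum : ∑ i, algebraMap K L (a i * (τ (E i).1 * T (E i).1 (E i).2) ^ d) *
            (v (E i).1 * U (E i).1 (E i).2) ^ e =
          ∑ k, algebraMap K L (τ k ^ d) * v k ^ e *
            ∑ j, algebraMap K L (a (E.symm (k, j)) * T k j ^ d) * U k j ^ e := by
        rw [← E.symm.sum_comp, Fintype.sum_prod_type]
        refine Finset.sum_congr rfl fun k _ => ?_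
        rw [Finset.mul_sum]
        refine Finset.sum_congr rfl fun j _ => ?_
        simp only [Equiv.apply_symm_apply, map_mul, map_pow, mul_pow]
        ring
      rw [hsum]
      rcases Nat.lt_or_ge m e with hlt | hge
      · have hem : e = m + 1 := by omega
        subst hem
        rw [← hws]
        refine Finset.sum_congr rfl fun k _ => ?_
        rw [hv2]
        simp only [γ]
        ring
      · refine Finset.sum_eq_zero fun k _ => ?_
        rw [hTU k e he1 hge, mul_zero]

end Quad

end Helper70.Lang
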