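import Pool.Agent.Helper70.Lang.Key

/-!
Pfister's theorem on sums of squares: if every diagonal quadratic form in `2 ^ n + 1` variables
over `L = K (√-1)` is isotropic then every sum of squares in `K` is a sum of `2 ^ n` squares.
Everything is done with value sets (Minkowski sums).
-/

namespace Helper70.Lang

open scoped BigOperators

universe u

section Values

variable {K : Type u} [Field K] {M : Type u} [AddCommGroup M] [Module K M]

/-- `G S l` : the Minkowski expansion of `S` along the Pfister form `⟨⟨l⟩⟩`. -/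
def G (S : Set M) : List K → Set M
  | [] => S
  | a :: l => {x | ∃ y ∈ G S l, ∃ z ∈ G S l, x = y + a • z}

/-- good base sets -/
structure Good (K : Type u) [Field K] {M : Type u} [AddCommGroup M] [Module K M] (S : Set M) :
    Prop where
  zero : (0 : M) ∈ S
  sq : ∀ (t : K) (x : M), x ∈ S → (t ^ 2) • x ∈ S
  mix : ∀ (α β : K), α + β ≠ 0 → ∀ x ∈ S, ∀ y ∈ S, ∃ x' ∈ S, ∃ y' ∈ S,
    (α + β) • (x + (α * β) • y) = α • x' + β • y'

theorem Good.lift {S : Set M} (h : Good K S) : ∀ l : List K, Good K (G S l)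
  | [] => h
  | a :: l => by
    have ih := Good.lift h l
    refine ⟨⟨0, ih.zero, 0, ih.zero, by simp⟩, ?_, ?_⟩
    · rintro t x ⟨y, hy, z, hz, rfl⟩
      exact ⟨_, ih.sq t y hy, _, ih.sq t z hz, by rw [smul_add, smul_comm]⟩
    · rintro α β hαβ x ⟨x1, hx1, x2, hx2, rfl⟩ y ⟨y1, hy1, y2, hy2, rfl⟩
      obtain ⟨p, hp, q, hq, h1⟩ := ih.mix α β hαβ x1 hx1 y1 hy1
      obtain ⟨p', hp', q', hq', h2⟩ := ih.mix α β hαβ x2 hx2 y2 hy2
      refine ⟨_, ⟨p, hp, p', hp', rfl⟩, _, ⟨q, hq, q', hq', rfl⟩, ?_⟩
      calc (α + β) • (x1 + a • x2 + (α * β) • (y1 + a • y2))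
          = (α + β) • (x1 + (α * β) • y1) + a • ((α + β) • (x2 + (α * β) • y2)) := by module
        _ = α • (p + a • p') + β • (q + a • q') := by rw [h1, h2]; module

/-- squares -/
def sqs (K : Type u) [Field K] : Set K := {x | ∃ t : K, x = t ^ 2}

theorem good_sqs : Good K (sqs K) := by
  refine ⟨⟨0, by simp⟩, ?_, ?_⟩
  · rintro t x ⟨s, rfl⟩
    exact ⟨t * s, by simp [mul_pow]⟩
  · rintro α β _ x ⟨s, rfl⟩ y ⟨t, rfl⟩
    refine ⟨_, ⟨s - β * t, rfl⟩, _, ⟨s + α * t, rfl⟩, ?_⟩
    simp only [smul_eq_mul]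
    ring

/-- triples `(x^2, y^2, x y)` -/
def trip (K : Type u) [Field K] : Set (K × K × K) := {x | ∃ s t : K, x = (s ^ 2, t ^ 2, s * t)}

theorem good_trip : Good K (trip K) := by
  refine ⟨⟨0, 0, by simp; rfl⟩, ?_, ?_⟩
  · rintro r x ⟨s, t, rfl⟩
    refine ⟨r * s, r * t, ?_⟩
    ext <;> simp <;> ring
  · rintro α β _ x ⟨s, t, rfl⟩ y ⟨s', t', rfl⟩
    refine ⟨_, ⟨s - β * s', t - β * t', rfl⟩, _, ⟨s + α * s', t + α * t', rfl⟩, ?_⟩
    ext <;> simp <;> ring

/-- the value set of the Pfister form `⟨⟨l⟩⟩` -/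
abbrev D (l : List K) : Set K := G (sqs K) l

theorem one_mem_D : ∀ l : List K, (1 : K) ∈ D l
  | [] => ⟨1, by simp⟩
  | _ :: l => ⟨1, one_mem_D l, 0, (good_sqs.lift l).zero, by simp⟩

theorem sq_mem_D (l : List K) (t : K) : t ^ 2 ∈ D l := by
  have := (good_sqs.lift l).sq t 1 (one_mem_D l)
  simpa using this

theorem inv_mem_D (l : List K) {c : K} (hc : c ∈ D l) : c⁻¹ ∈ D l := by
  by_cases h0 : c = 0
  · rw [h0, inv_zero]
    exact (good_sqs.lift l).zero
  · have := (good_sqs.lift l).sq c⁻¹ c hc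
    rw [smul_eq_mul] at this
    convert this using 1
    field_simp

/-- Roundness. -/
theorem Good.round {S : Set M} (h : Good K S) : ∀ (l : List K) (c : K), c ∈ D l → c ≠ 0 →
    ∀ x ∈ G S l, c • x ∈ G S l
  | [], c, hc, _, x, hx => by
    obtain ⟨t, rfl⟩ := hc
    exact h.sq t x hx
  | a :: l, c, hc, hc0, x, hx => by
    obtain ⟨p, hp, r, hr, rfl⟩ := hc
    obtain ⟨y, hy, z, hz, rfl⟩ := hx
    have ih := Good.round h l
    rw [smul_eq_mul] at hc0 ⊢
    by_cases hr0 : r = 0
    · subst hr0
      rw [mul_zero, add_zero] at hc0 ⊢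
      exact ⟨_, ih p hp hc0 y hy, _, ih p hp hc0 z hz, by rw [smul_add, smul_comm]⟩
    by_cases hp0 : p = 0
    · subst hp0
      rw [zero_add] at hc0 ⊢
      refine ⟨a ^ 2 • (r • z), (h.lift l).sq a _ (ih r hr hr0 z hz), r • y, ih r hr hr0 y hy, ?_⟩
      module
    · have hz' : (p * r)⁻¹ • z ∈ G S l := by
        rw [mul_inv, mul_smul]
        exact ih _ (inv_mem_D l hp) (inv_ne_zero hp0) _
          (ih _ (inv_mem_D l hr) (inv_ne_zero hr0) _ hz)
      obtain ⟨y', hy', z', hz'', hmix⟩ := (h.lift l).mix p (a * r) hc0 y hy _ hz'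
      refine ⟨p • y', ih p hp hp0 y' hy', r • z', ih r hr hr0 z' hz'', ?_⟩
      have h1 : (p * (a * r)) • ((p * r)⁻¹ • z) = a • z := by
        rw [smul_smul]
        congr 1
        field_simp
      rw [h1] at hmix
      rw [hmix]
      module

theorem mul_mem_D (l : List K) {c x : K} (hc : c ∈ D l) (hx : x ∈ D l) : c * x ∈ D l := by
  by_cases h0 : c = 0
  · rw [h0, zero_mul]
    exact (good_sqs.lift l).zero
  · exact good_sqs.round l c hc h0 x hx

/-- An isotropic Pfister form is universal. -/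
theorem univ_of_neg_mem [CharZero K] (l : List K) {a : K} (ha : a ≠ 0) (h : -a ∈ D l) (k : K) :
    k ∈ D (a :: l) := by
  have h1 : ((k + 1) / 2) ^ 2 ∈ D l := sq_mem_D l _
  have h2 : (-a)⁻¹ * ((k - 1) / 2) ^ 2 ∈ D l := mul_mem_D l (inv_mem_D l h) (sq_mem_D l _)
  refine ⟨_, h1, _, h2, ?_⟩
  rw [smul_eq_mul]
  field_simp
  ring

theorem G_mono {S : Set M} {l l' : List K} (h : G S l ⊆ G S l') (a : K) :
    G S (a :: l) ⊆ G S (a :: l') := by
  rintro x ⟨y, hy, z, hz, rfl⟩
  exact ⟨y, h hy, z, h hz, rfl⟩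

theorem D_swap (a b : K) (l : List K) : D (a :: b :: l) ⊆ D (b :: a :: l) := by
  rintro x ⟨y, ⟨y1, hy1, y2, hy2, rfl⟩, z, ⟨z1, hz1, z2, hz2, rfl⟩, rfl⟩
  refine ⟨_, ⟨y1, hy1, z1, hz1, rfl⟩, _, ⟨y2, hy2, z2, hz2, rfl⟩, ?_⟩
  simp only [smul_eq_mul]
  ring

theorem D_tail (a : K) (l : List K) : D l ⊆ D (a :: l) := by
  intro x hx
  exact ⟨x, hx, 0, (good_sqs.lift l).zero, by simp⟩

/-- The pure subform theorem for value sets. -/
theorem pure_sub [CharZero K] : ∀ (l : List K), (∀ a ∈ l, a ≠ 0) → ∀ k ∈ D l,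
    (∃ t : K, k = t ^ 2) ∨ (∀ x, x ∈ D l) ∨
      ∃ (t c : K) (l' : List K), c ≠ 0 ∧ k = t ^ 2 + c ∧ l'.length + 1 = l.length ∧
        (∀ a ∈ l', a ≠ 0) ∧ D (c :: l') ⊆ D l
  | [], _, k, hk => Or.inl hk
  | a :: l, hl, k, hk => by
    obtain ⟨k1, hk1, k2, hk2, rfl⟩ := hk
    rw [smul_eq_mul]
    have ha : a ≠ 0 := hl a (by simp)
    have hl' : ∀ b ∈ l, b ≠ 0 := fun b hb => hl b (by simp [hb])
    have hup : D l ⊆ D (a :: l) := D_tail a l
    rcases pure_sub l hl' k1 hk1 with ⟨t, rfl⟩ | huniv | ⟨t, c, l', hc, rfl, hlen, hne, hsub⟩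
    · by_cases hk0 : k2 = 0
      · left
        exact ⟨t, by rw [hk0]; ring⟩
      · right; right
        refine ⟨t, a * k2, l, mul_ne_zero ha hk0, rfl, rfl, hl', ?_⟩
        rintro x ⟨y, hy, z, hz, rfl⟩
        exact ⟨y, hy, k2 * z, mul_mem_D l hk2 hz, by simp only [smul_eq_mul]; ring⟩
    · right; left
      exact fun x => hup (huniv x)
    · by_cases hk0 : k2 = 0
      · right; right
        refine ⟨t, c, a :: l', hc, by rw [hk0]; ring, by simp [hlen], ?_, ?_⟩
        · intro b hb
          rcases List.mem_cons.1 hb with rfl | hb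
          · exact ha
          · exact hne b hb
        · exact (D_swap c a l').trans (G_mono hsub a)
      · have ha' : a * k2 ≠ 0 := mul_ne_zero ha hk0
        -- `D (a * k2 :: l) ⊆ D (a :: l)`
        have hsub1 : D ((a * k2) :: l) ⊆ D (a :: l) := by
          rintro x ⟨y, hy, z, hz, rfl⟩
          exact ⟨y, hy, k2 * z, mul_mem_D l hk2 hz, by simp only [smul_eq_mul]; ring⟩
        have hsub2 : D ((a * k2) :: c :: l') ⊆ D (a :: l) := (G_mono hsub _).trans hsub1
        by_cases hsum : c + a * k2 = 0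
        · right; left
          intro x
          apply hsub2
          apply univ_of_neg_mem _ ha'
          have : -(a * k2) = c := by linear_combination -hsum
          rw [this]
          exact ⟨0, (good_sqs.lift l').zero, 1, one_mem_D l', by simp⟩
        · right; right
          refine ⟨t, c + a * k2, (c * (a * k2)) :: l', hsum, by ring, by simp [hlen], ?_, ?_⟩
          · intro b hb
            rcases List.mem_cons.1 hb with rfl | hb
            · exact mul_ne_zero hc ha'
            · exact hne b hb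
          · refine Set.Subset.trans ?_ hsub2
            rintro x ⟨y, ⟨y1, hy1, y2, hy2, rfl⟩, z, ⟨z1, hz1, z2, hz2, rfl⟩, rfl⟩
            obtain ⟨p, hp, q, hq, hmix⟩ := (good_sqs.lift l').mix c (a * k2) hsum z1 hz1 z2 hz2
            refine ⟨y1 + c • p, ⟨y1, hy1, p, hp, rfl⟩, q + c • y2, ⟨q, hq, y2, hy2, rfl⟩, ?_⟩
            rw [hmix]
            simp only [smul_eq_mul]
            ring

/-- The index type of the diagonal form `⟨⟨l⟩⟩`. -/
def Idx : List K → Type
  | [] => Unit
  | _ :: l => Idx l ⊕ Idx l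

instance Idx.fintype : ∀ l : List K, Fintype (Idx l)
  | [] => inferInstanceAs (Fintype Unit)
  | _ :: l => by
    haveI := Idx.fintype l
    exact inferInstanceAs (Fintype (Idx l ⊕ Idx l))

theorem Idx.card : ∀ l : List K, Fintype.card (Idx l) = 2 ^ l.length
  | [] => by
    simp only [List.length_nil, pow_zero]
    exact Fintype.card_unit
  | a :: l => by
    have h : Fintype.card (Idx (a :: l)) = Fintype.card (Idx l ⊕ Idx l) := rfl
    rw [h, Fintype.card_sum, Idx.card l, List.length_cons, pow_succ]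
    ring

/-- The coefficients of `⟨⟨l⟩⟩`. -/
def cf : ∀ l : List K, Idx l → K
  | [], _ => 1
  | a :: l, i => Sum.elim (cf l) (fun j => a * cf l j) i

theorem sum_Idx_cons {N : Type*} [AddCommMonoid N] (a : K) (l : List K)
    (f : Idx (a :: l) → N) :
    ∑ i, f i = (∑ i : Idx l, f (Sum.inl i : Idx l ⊕ Idx l)) +
      ∑ i : Idx l, f (Sum.inr i : Idx l ⊕ Idx l) :=
  Fintype.sum_sum_type (α₁ := Idx l) (α₂ := Idx l) f

theorem sum_cf_cons (a : K) (l : List K) (f : Idx (a :: l) → K) :
    ∑ i, cf (a :: l) i * f i = (∑ i : Idx l, cf l i * f (Sum.inl i : Idx l ⊕ Idx l)) +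
      a * ∑ i : Idx l, cf l i * f (Sum.inr i : Idx l ⊕ Idx l) := by
  rw [sum_Idx_cons, Finset.mul_sum]
  congr 1
  refine Finset.sum_congr rfl fun i _ => ?_
  change a * cf l i * _ = _
  ring

theorem cf_ne_zero : ∀ (l : List K), (∀ a ∈ l, a ≠ 0) → ∀ i, cf l i ≠ 0
  | [], _, _ => one_ne_zero
  | a :: l, h, i => by
    have ih := cf_ne_zero l (fun b hb => h b (by simp [hb]))
    have ha := h a (by simp)
    rcases i with i | i
    · exact ih i
    · exact mul_ne_zero ha (ih i)

theorem trip_mem : ∀ (l : List K) (u v : Idx l → K),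
    ((∑ i, cf l i * u i ^ 2, ∑ i, cf l i * v i ^ 2, ∑ i, cf l i * (u i * v i)) : K × K × K) ∈
      G (trip K) l
  | [], u, v => by
    refine ⟨u (), v (), ?_⟩
    have h : ∀ f : Idx ([] : List K) → K, ∑ i, f i = f () := fun f =>
      Fintype.sum_unique (ι := Unit) f
    rw [h, h, h]
    simp [cf]
  | a :: l, u, v => by
    refine ⟨_, trip_mem l (fun i => u (Sum.inl i : Idx l ⊕ Idx l))
      (fun i => v (Sum.inl i : Idx l ⊕ Idx l)), _,
      trip_mem l (fun i => u (Sum.inr i : Idx l ⊕ Idx l))
      (fun i => v (Sum.inr i : Idx l ⊕ Idx l)), ?_⟩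
    rw [sum_cf_cons, sum_cf_cons, sum_cf_cons]
    simp only [Prod.smul_mk, Prod.mk_add_mk, smul_eq_mul]

theorem trip_comb : ∀ (l : List K) (x : K × K × K), x ∈ G (trip K) l → ∀ α γ : K,
    α ^ 2 * x.1 + γ ^ 2 * x.2.1 + 2 * α * γ * x.2.2 ∈ D l
  | [], x, hx, α, γ => by
    obtain ⟨s, t, rfl⟩ := hx
    exact ⟨α * s + γ * t, by simp only; ring⟩
  | a :: l, x, hx, α, γ => by
    obtain ⟨y, hy, z, hz, rfl⟩ := hx
    refine ⟨_, trip_comb l y hy α γ, _, trip_comb l z hz α γ, ?_⟩
    simp only [Prod.fst_add, Prod.snd_add, Prod.smul_fst, Prod.smul_snd, smul_eq_mul]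
    ring

theorem exists_rep : ∀ (l : List K) (x : K), x ∈ D l → ∃ u : Idx l → K, x = ∑ i, cf l i * u i ^ 2
  | [], x, hx => by
    obtain ⟨t, rfl⟩ := hx
    refine ⟨fun _ => t, ?_⟩
    have h : ∀ f : Idx ([] : List K) → K, ∑ i, f i = f () := fun f =>
      Fintype.sum_unique (ι := Unit) f
    rw [h]
    simp [cf]
  | a :: l, x, hx => by
    obtain ⟨y, hy, z, hz, rfl⟩ := hx
    obtain ⟨u, rfl⟩ := exists_rep l y hy
    obtain ⟨v, rfl⟩ := exists_rep l z hz
    refine ⟨fun i => Sum.elim u v i, ?_⟩
    rw [sum_cf_cons, smul_eq_mul]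
    rfl

theorem univ_of_isotropic [CharZero K] (l : List K) (hl : ∀ a ∈ l, a ≠ 0) (u : Idx l → K)
    (hu : u ≠ 0) (h0 : ∑ i, cf l i * u i ^ 2 = 0) (k : K) : k ∈ D l := by
  classical
  obtain ⟨j, hj⟩ : ∃ j, u j ≠ 0 := by
    by_contra hcon
    push Not at hcon
    exact hu (funext hcon)
  have hc := cf_ne_zero l hl j
  have h1 := trip_comb l _ (trip_mem l u (fun i => if i = j then 1 else 0))
    ((k - cf l j) / (2 * cf l j * u j)) 1
  simp only [h0] at h1
  have h2 : ∑ i, cf l i * (if i = j then (1 : K) else 0) ^ 2 = cf l j := by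
    rw [Finset.sum_eq_single j]
    · simp
    · intro i _ hij
      simp [hij]
    · intro h
      exact absurd (Finset.mem_univ j) h
  have h3 : ∑ i, cf l i * (u i * (if i = j then (1 : K) else 0)) = cf l j * u j := by
    rw [Finset.sum_eq_single j]
    · simp
    · intro i _ hij
      simp [hij]
    · intro h
      exact absurd (Finset.mem_univ j) h
  rw [h2, h3] at h1
  convert h1 using 1
  field_simp
  ring

/-- Two vectors whose values differ suitably represent a sum of two squares. -/
theorem sum_two_of_trip [CharZero K] (l : List K) (A C B : K)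
    (h : ((A, C, B) : K × K × K) ∈ G (trip K) l) (hA : A ≠ 0) :
    (A - C) ^ 2 + (2 * B) ^ 2 ∈ D l := by
  have hAD : A ∈ D l := by
    have := trip_comb l _ h 1 0
    simpa using this
  have h1 := good_trip.round l A⁻¹ (inv_mem_D l hAD) (inv_ne_zero hA) _ h
  have h2 := trip_comb l _ h1 (1 - C / A) (2 * B / A)
  have h3 := (good_sqs.lift l).sq A _ h2
  convert h3 using 1
  simp only [Prod.smul_fst, Prod.smul_snd, smul_eq_mul]
  field_simp
  ring

end Values

section Pfister

variable {K L : Type u} [Field K] [CharZero K] [Field L] [Algebra K L]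

theorem Conj.split (C : Conj K L) (I : L) (hI : I ^ 2 = -1) (hC : C.σ I = -I) (z : L) :
    ∃ u v : K, z = algebraMap K L u + algebraMap K L v * I := by
  have hinj : Function.Injective (algebraMap K L) := (algebraMap K L).injective
  have : CharZero L := charZero_of_injective_algebraMap hinj
  have hI0 : I ≠ 0 := by
    rintro rfl
    norm_num at hI
  obtain ⟨u, hu⟩ := C.fix ((z + C.σ z) / 2) (by
    rw [map_div₀, map_add, C.invol, map_ofNat]
    ring)
  obtain ⟨v, hv⟩ := C.fix ((z - C.σ z) / (2 * I)) (by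
    rw [map_div₀, map_sub, C.invol, map_mul, hC, map_ofNat]
    field_simp
    ring)
  refine ⟨u, v, ?_⟩
  rw [hu, hv]
  field_simp
  ring

theorem Conj.split_zero (C : Conj K L) (I : L) (hI : I ^ 2 = -1) (hC : C.σ I = -I) (p q : K)
    (h : algebraMap K L p + algebraMap K L q * I = 0) : p = 0 ∧ q = 0 := by
  have hinj : Function.Injective (algebraMap K L) := (algebraMap K L).injective
  have : CharZero L := charZero_of_injective_algebraMap hinj
  have hI0 : I ≠ 0 := by
    rintro rfl
    norm_num at hI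
  have h1 := congrArg C.σ h
  rw [map_add, map_mul, C.fixK, C.fixK, hC, map_zero] at h1
  have h2 : algebraMap K L p = 0 := by
    have : (2 : L) * algebraMap K L p = 0 := by linear_combination h + h1
    simpa using this
  have h3 : algebraMap K L q = 0 := by
    rw [h2, zero_add] at h
    exact (mul_eq_zero.1 h).resolve_right hI0
  exact ⟨by simpa using h2, by simpa using h3⟩

/-- Sums of two squares are values of every `n`-fold Pfister form. -/
theorem Conj.two_squares (C : Conj K L) (I : L) (hI : I ^ 2 = -1) (hC : C.σ I = -I) (n : ℕ)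
    (hn : DiagBound L 2 (2 ^ n + 1)) (l : List K) (hlen : l.length = n)
    (hl : ∀ a ∈ l, a ≠ 0) (b₁ b₂ : K) : b₁ ^ 2 + b₂ ^ 2 ∈ D l := by
  classical
  have hcard : Fintype.card (Option (Idx l)) = 2 ^ n + 1 := by
    rw [Fintype.card_option, Idx.card, hlen]
  obtain ⟨x, hx, hs⟩ := hn.of_card hcard (fun o => Option.elim o
    (-(algebraMap K L b₁ + algebraMap K L b₂ * I)) (fun i => algebraMap K L (cf l i)))
  rw [Fintype.sum_option] at hs
  simp only [Option.elim] at hs
  have key : ∀ (z : Idx l → L) (u v : Idx l → K),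
      (∀ i, z i = algebraMap K L (u i) + algebraMap K L (v i) * I) →
      ∑ i, algebraMap K L (cf l i) * z i ^ 2 =
        algebraMap K L (∑ i, cf l i * u i ^ 2 - ∑ i, cf l i * v i ^ 2) +
        algebraMap K L (2 * ∑ i, cf l i * (u i * v i)) * I := by
    intro z u v hz
    simp only [map_sub, map_sum, map_mul, map_ofNat, map_pow, Finset.mul_sum, Finset.sum_mul]
    rw [← Finset.sum_sub_distrib, ← Finset.sum_add_distrib]
    refine Finset.sum_congr rfl fun i _ => ?_
    rw [hz]
    linear_combination algebraMap K L (cf l i) * algebraMap K L (v i) ^ 2 * hI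
  by_cases ht : x none = 0
  · rw [ht] at hs
    choose u v huv using fun i => C.split I hI hC (x (some i))
    have h1 := key (fun i => x (some i)) u v huv
    rw [show ∑ i, algebraMap K L (cf l i) * x (some i) ^ 2 = 0 by simpa using hs] at h1
    obtain ⟨h2, h3⟩ := C.split_zero I hI hC _ _ h1.symm
    have h4 : ∑ i, cf l i * (u i * v i) = 0 := by simpa using h3
    have h5 := trip_mem l u v
    rw [h4] at h5
    by_cases hA : ∑ i, cf l i * u i ^ 2 = 0
    · have hA' : ∑ i, cf l i * v i ^ 2 = 0 := by linear_combination hA - h2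
      by_cases hu : u = 0
      · by_cases hv : v = 0
        · exfalso
          apply hx
          funext o
          cases o with
          | none => exact ht
          | some i => rw [huv, hu, hv]; simp
        · exact univ_of_isotropic l hl v hv hA' _
      · exact univ_of_isotropic l hl u hu hA _
    · have h6 : ∑ i, cf l i * v i ^ 2 = ∑ i, cf l i * u i ^ 2 := by linear_combination -h2
      rw [h6] at h5
      set A := ∑ i, cf l i * u i ^ 2 with hAdef
      have hAD : A ∈ D l := by
        have := trip_comb l _ h5 1 0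
        simpa using this
      have h7 := good_trip.round l A⁻¹ (inv_mem_D l hAD) (inv_ne_zero hA) _ h5
      have h8 := trip_comb l _ h7 b₁ b₂
      convert h8 using 1
      simp only [Prod.smul_fst, Prod.smul_snd, smul_eq_mul]
      field_simp
      ring
  · choose u v huv using fun i => C.split I hI hC (x (some i) / x none)
    have h1 := key (fun i => x (some i) / x none) u v huv
    have h2 : ∑ i, algebraMap K L (cf l i) * (x (some i) / x none) ^ 2 =
        algebraMap K L b₁ + algebraMap K L b₂ * I := by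
      have h3 : ∑ i, algebraMap K L (cf l i) * (x (some i) / x none) ^ 2 =
          (∑ i, algebraMap K L (cf l i) * x (some i) ^ 2) / x none ^ 2 := by
        rw [Finset.sum_div]
        refine Finset.sum_congr rfl fun i _ => ?_
        rw [div_pow]
        ring
      rw [h3]
      field_simp
      linear_combination hs
    rw [h2] at h1
    have h3 : algebraMap K L ((∑ i, cf l i * u i ^ 2 - ∑ i, cf l i * v i ^ 2) - b₁) +
        algebraMap K L (2 * ∑ i, cf l i * (u i * v i) - b₂) * I = 0 := by
      rw [map_sub _ _ b₁, map_sub _ _ b₂]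
      linear_combination -h1
    obtain ⟨h4, h5⟩ := C.split_zero I hI hC _ _ h3
    have h6 := trip_mem l u v
    by_cases hA : ∑ i, cf l i * u i ^ 2 = 0
    · by_cases hA' : ∑ i, cf l i * v i ^ 2 = 0
      · have hb1 : b₁ = 0 := by linear_combination hA - hA' - h4
        rw [hb1]
        have := sq_mem_D l b₂
        simpa using this
      · have h7 := trip_mem l v u
        have h8 := sum_two_of_trip l _ _ _ h7 hA'
        convert h8 using 1
        have h9 : ∑ i, cf l i * (v i * u i) = ∑ i, cf l i * (u i * v i) := by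
          refine Finset.sum_congr rfl fun i _ => ?_
          ring
        rw [h9]
        have hb1 : b₁ = ∑ i, cf l i * u i ^ 2 - ∑ i, cf l i * v i ^ 2 := by
          linear_combination -h4
        have hb2 : b₂ = 2 * ∑ i, cf l i * (u i * v i) := by linear_combination -h5
        rw [hb1, hb2]
        ring
    · have h8 := sum_two_of_trip l _ _ _ h6 hA
      convert h8 using 1
      have hb1 : b₁ = ∑ i, cf l i * u i ^ 2 - ∑ i, cf l i * v i ^ 2 := by
        linear_combination -h4
      have hb2 : b₂ = 2 * ∑ i, cf l i * (u i * v i) := by linear_combination -h5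
      rw [hb1, hb2]

/-- Sums of squares are values of every `n`-fold Pfister form. -/
theorem Conj.sum_squares (C : Conj K L) (I : L) (hI : I ^ 2 = -1) (hC : C.σ I = -I) (n : ℕ)
    (hn : DiagBound L 2 (2 ^ n + 1)) : ∀ (m : ℕ) (y : Fin m → K) (l : List K),
    l.length = n → (∀ a ∈ l, a ≠ 0) → ∑ j, y j ^ 2 ∈ D l := by
  intro m
  induction m with
  | zero =>
    intro y l _ _
    simpa using sq_mem_D l 0
  | succ m ih =>
    intro y l hlen hl
    rw [Fin.sum_univ_succ]
    set x := y 0 with hx
    obtain ⟨c, hc⟩ : ∃ c : K, c = ∑ j : Fin m, y j.succ ^ 2 := ⟨_, rfl⟩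
    rw [← hc]
    by_cases hx0 : x = 0
    · rw [hx0, hc]
      have := ih (fun j => y j.succ) l hlen hl
      simpa using this
    -- scale
    have hscale : 1 + c / x ^ 2 ∈ D l → x ^ 2 + c ∈ D l := by
      intro h
      have h1 := (good_sqs.lift l).sq x _ h
      convert h1 using 1
      rw [smul_eq_mul]
      field_simp
    apply hscale
    have hc1 : c / x ^ 2 ∈ D l := by
      have := ih (fun j => y j.succ / x) l hlen hl
      convert this using 1
      rw [hc, Finset.sum_div]
      refine Finset.sum_congr rfl fun j _ => ?_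
      rw [div_pow]
    generalize c / x ^ 2 = k at hc1
    rcases pure_sub l hl k hc1 with ⟨t, rfl⟩ | huniv | ⟨t, c', l', hc', rfl, hlen', hne, hsub⟩
    · have := C.two_squares I hI hC n hn l hlen hl 1 t
      simpa using this
    · exact huniv _
    · set b := 1 + (t ^ 2 + c') with hb
      by_cases hb0 : b = 0
      · rw [hb0]
        exact (good_sqs.lift l).zero
      have h1 : 1 ^ 2 + t ^ 2 ∈ D ((-(b * c')) :: l') := by
        refine C.two_squares I hI hC n hn _ (by simpa [hlen] using hlen') ?_ 1 t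
        intro a ha
        rcases List.mem_cons.1 ha with rfl | ha
        · exact neg_ne_zero.2 (mul_ne_zero hb0 hc')
        · exact hne a ha
      obtain ⟨p, hp, q, hq, hpq⟩ := h1
      rw [smul_eq_mul] at hpq
      have h2 : b * (1 + c' * q) = p + c' := by
        linear_combination (-1 : K) * hb + hpq + hb
      by_cases h3 : 1 + c' * q = 0
      · -- isotropic
        have hq0 : q ≠ 0 := by
          rintro rfl
          simp at h3
        apply hsub
        apply univ_of_neg_mem _ hc'
        have : -c' = q⁻¹ := by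
          field_simp
          linear_combination -h3
        rw [this]
        exact inv_mem_D l' hq
      · have h4 : p + c' ∈ D l := hsub ⟨p, hp, 1, one_mem_D l', by simp⟩
        have h5 : 1 + c' * q ∈ D l := hsub ⟨1, one_mem_D l', q, hq, rfl⟩
        have h6 : b = (1 + c' * q)⁻¹ * (p + c') := by
          field_simp
          linear_combination h2
        rw [h6]
        exact mul_mem_D l (inv_mem_D l h5) h4

end Pfister

end Helper70.Lang
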