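import Pool.Agent.Helper70.Lang.Descent
import Pool.Agent.Helper70.Lang.Level

/-!
Assembly of the proof from the packets.
-/

namespace Helper70.Lang

open scoped BigOperators Cardinal

universe u v

theorem CProp.mono {F : Type u} [Field F] {j k : ℕ} (h : CProp F j) (hjk : j ≤ k) :
    CProp F k := by
  intro V _ _ _ ι _ e B he hlt
  refine h V ι e B he (lt_of_le_of_lt ?_ hlt)
  exact Finset.sum_le_sum fun i _ => Nat.pow_le_pow_right (he i) hjk

theorem CProp.diag {F : Type u} [Field F] {j : ℕ} (h : CProp F j) {d : ℕ} (hd : 1 ≤ d) :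
    DiagBound F d (d ^ j + 1) := by
  intro a
  let B : MultilinearMap F (fun _ : Fin d => (Fin (d ^ j + 1) → F)) F :=
    ∑ l, a l • (MultilinearMap.mkPiAlgebra F (Fin d) F).compLinearMap
      (fun _ => LinearMap.proj l)
  obtain ⟨x, hx, hxB⟩ := h (Fin (d ^ j + 1) → F) Unit (fun _ => d) (fun _ => B)
    (fun _ => hd) (by simp)
  refine ⟨x, hx, ?_⟩
  have := hxB ()
  simpa [B, sum_apply] using this

theorem Phi_pos (i : ℕ) : ∀ s d : ℕ, 1 ≤ Phi i s d
  | 0, d => by simp [Phi]
  | s + 1, d => by
    unfold Phi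
    exact Finset.one_le_prod' (fun e _ => Phi_pos i s _)

theorem Phi_mono (i : ℕ) : ∀ s d d' : ℕ, d ∣ d' → 1 ≤ d' → Phi i s d ≤ Phi i s d'
  | 0, d, d', h, h' => by
    unfold Phi
    exact Nat.add_le_add_right (Nat.pow_le_pow_left (Nat.le_of_dvd (by omega) h) i) 1
  | s + 1, d, d', h, h' => by
    have hle := Nat.le_of_dvd (by omega) h
    unfold Phi
    calc ∏ e ∈ Finset.range d, Phi i s (2 * Nat.lcm d (e + 1))
        ≤ ∏ e ∈ Finset.range d, Phi i s (2 * Nat.lcm d' (e + 1)) := by
          refine Finset.prod_le_prod' fun e _ => ?_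
          refine Phi_mono i s _ _ ?_ ?_
          · exact Nat.mul_dvd_mul_left 2 (Nat.lcm_dvd (h.trans (Nat.dvd_lcm_left _ _)) (Nat.dvd_lcm_right _ _))
          · have := Nat.lcm_pos (show 0 < d' by omega) (show 0 < e + 1 by omega)
            omega
      _ ≤ ∏ e ∈ Finset.range d', Phi i s (2 * Nat.lcm d' (e + 1)) := by
          refine Finset.prod_le_prod_of_subset_of_one_le' ?_ ?_
          · exact Finset.range_subset_range.2 hle
          · intro e _ _
            exact Phi_pos i s _

theorem Phi_le_succ (i s : ℕ) {d : ℕ} (hd : 1 ≤ d) : Phi i s d ≤ Phi i (s + 1) d := by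
  rw [show Phi i (s + 1) d = ∏ e ∈ Finset.range d, Phi i s (2 * Nat.lcm d (e + 1)) from rfl]
  calc Phi i s d ≤ Phi i s (2 * Nat.lcm d (0 + 1)) := by
        refine Phi_mono i s _ _ ?_ ?_
        · exact Dvd.dvd.mul_left (Nat.dvd_lcm_left _ _) 2
        · have := Nat.lcm_pos (show 0 < d by omega) (show 0 < 0 + 1 by omega)
          omega
    _ ≤ ∏ e ∈ Finset.range d, Phi i s (2 * Nat.lcm d (e + 1)) := by
      refine Finset.single_le_prod' (f := fun e => Phi i s (2 * Nat.lcm d (e + 1))) ?_ ?_
      · intro e _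
        exact Phi_pos i s _
      · exact Finset.mem_range.2 (by omega)

/-- Tsen-Lang over a `C_j`-field. -/
theorem cprop_trdeg (hA : CAlg.{u}) (hS : CSimple.{u}) : ∀ (m : ℕ) (j : ℕ) (F K : Type u)
    [Field F] [Field K] [Algebra F K], Algebra.trdeg F K ≤ (m : Cardinal.{u}) → CProp F j →
      CProp K (j + m) := by
  intro m
  induction m with
  | zero =>
    intro j F K _ _ _ htr h
    have h0 : Algebra.trdeg F K = 0 := by simpa using htr
    have := trdeg_eq_zero_iff.1 h0
    exact hA F K j h
  | succ m ih =>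
    intro j F K _ _ _ htr h
    by_cases halg : Algebra.IsAlgebraic F K
    · exact (hA F K j h).mono (by omega)
    · obtain ⟨t, ht⟩ : ∃ t : K, ¬ IsAlgebraic F t := by
        by_contra hcon
        push Not at hcon
        exact halg ⟨hcon⟩
      have h1 := hS F K t j h
      have hadd := trdeg_add_eq F (IntermediateField.adjoin F ({t} : Set K)) (A := K)
      have hne : Algebra.trdeg F (IntermediateField.adjoin F ({t} : Set K)) ≠ 0 := by
        intro h0
        have halg' := trdeg_eq_zero_iff.1 h0
        apply ht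
        have h2 := halg'.isAlgebraic
          (⟨t, IntermediateField.mem_adjoin_simple_self F t⟩ :
            IntermediateField.adjoin F ({t} : Set K))
        exact h2.algebraMap (A := K)
      have hle : Algebra.trdeg (IntermediateField.adjoin F ({t} : Set K)) K ≤ (m : Cardinal.{u}) := by
        have h1le : (1 : Cardinal.{u}) ≤
            Algebra.trdeg F (IntermediateField.adjoin F ({t} : Set K)) :=
          Cardinal.one_le_iff_ne_zero.2 hne
        have h3 : Algebra.trdeg (IntermediateField.adjoin F ({t} : Set K)) K + 1 ≤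
            (m : Cardinal.{u}) + 1 := by
          calc Algebra.trdeg (IntermediateField.adjoin F ({t} : Set K)) K + 1
              ≤ Algebra.trdeg (IntermediateField.adjoin F ({t} : Set K)) K +
                Algebra.trdeg F (IntermediateField.adjoin F ({t} : Set K)) := by gcongr
            _ = Algebra.trdeg F K := by rw [add_comm, hadd]
            _ ≤ ((m + 1 : ℕ) : Cardinal.{u}) := htr
            _ = (m : Cardinal.{u}) + 1 := by push_cast; ring
        exact Cardinal.add_one_le_add_one_iff.1 h3
      have := ih (j + 1) (IntermediateField.adjoin F ({t} : Set K)) K hle h1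
      exact this.mono (by omega)

/-- Level one: `K` contains a square root of `-1`. -/
theorem level_one (hF : FTA.{u, v}) (hZ : CZero.{u}) (hA : CAlg.{u}) (hS : CSimple.{u})
    (R : Type v) (K : Type u) [Field R] [IsRealClosed R] [Field K] [Algebra R K] (i : ℕ)
    (htr : Algebra.trdeg R K ≤ (i : Cardinal.{u})) (I : K) (hI : I ^ 2 = -1) :
    CProp K i := by
  have := hF R K I hI
  have h0 := hZ (IntermediateField.adjoin R ({I} : Set K))
  have hle : Algebra.trdeg (IntermediateField.adjoin R ({I} : Set K)) K ≤ (i : Cardinal.{u}) := by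
    have hadd := trdeg_add_eq R (IntermediateField.adjoin R ({I} : Set K)) (A := K)
    have h1 : Algebra.trdeg (IntermediateField.adjoin R ({I} : Set K)) K ≤ Algebra.trdeg R K := by
      rw [← hadd]
      exact self_le_add_left _ _
    exact h1.trans htr
  simpa using cprop_trdeg hA hS i 0 _ K hle h0

theorem charZero_of_rc (R : Type v) [Field R] [IsRealClosed R] : CharZero R := by
  rcases CharP.exists R with ⟨p, hp⟩
  rcases Nat.eq_zero_or_pos p with h0 | hpos
  · subst h0
    exact CharP.charP_to_charZero R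
  · exfalso
    have h1 : IsSumSq ((p - 1 : ℕ) : R) := by
      have : ∀ n : ℕ, IsSumSq (n : R) := by
        intro n
        induction n with
        | zero => simp
        | succ n ih =>
          push_cast
          exact ih.add (by simp)
      exact this _
    have h2 : (1 : R) + ((p - 1 : ℕ) : R) = 0 := by
      have : ((1 + (p - 1) : ℕ) : R) = 0 := by
        rw [show 1 + (p - 1) = p by omega]
        exact CharP.cast_eq_zero R p
      push_cast at this ⊢
      exact this
    exact IsSemireal.one_add_ne_zero h1 h2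

/-- the conjugation of the quadratic extension `K (√a)` -/
noncomputable def quadConj (K : Type u) [Field K] [CharZero K] (a : K)
    [Fact (∀ r : K, r ^ 2 ≠ a + 0 * r)] : Conj K (QuadraticAlgebra K a 0) where
  σ := starRingEnd (QuadraticAlgebra K a 0)
  invol := fun x => by simp
  fix := by
    intro x hx
    refine ⟨x.re, ?_⟩
    have h1 := congrArg QuadraticAlgebra.im hx
    have h2 : -x.im = x.im := by simpa [starRingEnd_apply] using h1
    have h3 : x.im = 0 := by
      have : (2 : K) * x.im = 0 := by linear_combination -h2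
      simpa using this
    ext
    · simp
    · simp [h3]
  fixK := by
    intro y
    rw [starRingEnd_apply]
    ext
    · simp
    · simp

theorem cf_replicate {K : Type u} [Field K] : ∀ (n : ℕ) (i : Idx (List.replicate n (1 : K))),
    cf (List.replicate n (1 : K)) i = 1
  | 0, _ => rfl
  | n + 1, i => by
    rcases i with i | i
    · exact cf_replicate n i
    · change (1 : K) * cf (List.replicate n (1 : K)) i = 1
      rw [one_mul]
      exact cf_replicate n i

/-- `x` is a sum of `m` squares -/
def SS (K : Type u) [Field K] (m : ℕ) (x : K) : Prop := ∃ y : Fin m → K, ∑ j, y j ^ 2 = x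

theorem SS.add {K : Type u} [Field K] {m n : ℕ} {x y : K} (hx : SS K m x) (hy : SS K n y) :
    SS K (m + n) (x + y) := by
  obtain ⟨u, rfl⟩ := hx
  obtain ⟨v, rfl⟩ := hy
  refine ⟨Fin.append u v, ?_⟩
  rw [Fin.sum_univ_add]
  simp

theorem SS.split {K : Type u} [Field K] {m n : ℕ} {z : K} (hz : SS K (m + n) z) :
    ∃ x y, z = x + y ∧ SS K m x ∧ SS K n y := by
  obtain ⟨u, rfl⟩ := hz
  refine ⟨_, _, ?_, ⟨fun j => u (Fin.castAdd n j), rfl⟩, ⟨fun j => u (Fin.natAdd m j), rfl⟩⟩
  rw [Fin.sum_univ_add]

theorem SS.sq {K : Type u} [Field K] (t : K) : SS K 1 (t ^ 2) := ⟨fun _ => t, by simp⟩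

theorem SS.zero {K : Type u} [Field K] (m : ℕ) : SS K m 0 := ⟨fun _ => 0, by simp⟩

theorem SS.mono {K : Type u} [Field K] {m n : ℕ} {x : K} (h : SS K m x) (hmn : m ≤ n) :
    SS K n x := by
  obtain ⟨k, rfl⟩ := Nat.exists_eq_add_of_le hmn
  simpa using h.add (SS.zero k)

theorem SS.iff_D {K : Type u} [Field K] (r : ℕ) (x : K) :
    SS K (2 ^ r) x ↔ x ∈ D (List.replicate r (1 : K)) := by
  classical
  have hcard : Fintype.card (Idx (List.replicate r (1 : K))) = 2 ^ r := by
    rw [Idx.card, List.length_replicate]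
  constructor
  · rintro ⟨y, rfl⟩
    have h1 := trip_comb _ _ (trip_mem (List.replicate r (1 : K))
      (fun i => y (Fintype.equivFinOfCardEq hcard i)) 0) 1 0
    simp only [cf_replicate, one_mul] at h1
    rw [(Fintype.equivFinOfCardEq hcard).sum_comp (fun j => y j ^ 2)] at h1
    simpa using h1
  · intro h
    obtain ⟨u, rfl⟩ := exists_rep _ _ h
    refine ⟨fun j => u ((Fintype.equivFinOfCardEq hcard).symm j), ?_⟩
    rw [(Fintype.equivFinOfCardEq hcard).symm.sum_comp (fun j => u j ^ 2)]
    refine Finset.sum_congr rfl fun j _ => ?_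
    rw [cf_replicate, one_mul]

/-- Pfister: if `-1` is a sum of fewer than `2 ^ (r + 1)` squares then it is a sum of `2 ^ r`
squares. -/
theorem SS.halve {K : Type u} [Field K] {r m : ℕ} (hm : m < 2 ^ (r + 1)) (h : SS K m (-1)) :
    SS K (2 ^ r) (-1) := by
  have h1 : SS K (2 ^ r + (2 ^ r - 1)) (-1) := h.mono (by
    have : 1 ≤ 2 ^ r := Nat.one_le_two_pow
    rw [pow_succ] at hm
    omega)
  obtain ⟨p, q, hpq, hp, hq⟩ := h1.split
  have hq1 : SS K (2 ^ r) (1 + q) := by
    have h2 := (SS.sq (1 : K)).add hq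
    rw [Nat.add_sub_cancel' Nat.one_le_two_pow] at h2
    simpa using h2
  by_cases hp0 : p = 0
  · rw [hp0, zero_add] at hpq
    rw [hpq]
    exact hq.mono (Nat.sub_le _ _)
  · rw [SS.iff_D] at hp hq1 ⊢
    have h3 : (-1 : K) = p⁻¹ * (1 + q) := by
      field_simp
      linear_combination hpq
    rw [h3]
    exact mul_mem_D _ (inv_mem_D _ hp) hq1

theorem SS.of_isSumSq {K : Type u} [Field K] {x : K} (h : IsSumSq x) : ∃ m, SS K m x := by
  induction h with
  | zero => exact ⟨0, SS.zero 0⟩
  | sq_add a _ ih =>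
    obtain ⟨m, hm⟩ := ih
    refine ⟨1 + m, ?_⟩
    have := (SS.sq a).add hm
    rwa [pow_two] at this

/-- If `ω ^ 2 = -A` and `A ≠ 0` is a sum of `m` squares in `K` then `-1` is a sum of `m` squares
in `L`. -/
theorem SS.up {K L : Type u} [Field K] [Field L] [Algebra K L] {m : ℕ}
    (A : K) (hA : SS K m A) (hA0 : A ≠ 0) (ω : L) (hω : ω ^ 2 = -algebraMap K L A) :
    SS L m (-1) := by
  obtain ⟨y, rfl⟩ := hA
  refine ⟨fun j => algebraMap K L (y j) / ω, ?_⟩
  simp only [div_pow]
  rw [← Finset.sum_div, hω]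
  have h1 : ∑ j : Fin m, algebraMap K L (y j) ^ 2 = algebraMap K L (∑ j, y j ^ 2) := by
    rw [map_sum]
    simp
  rw [h1]
  have h2 : algebraMap K L (∑ j, y j ^ 2) ≠ 0 := by
    rw [map_ne_zero]
    exact hA0
  field_simp

theorem Conj.norm_neg_one {K L : Type u} [Field K] [Field L] [Algebra K L] (C : Conj K L)
    (y A : K) (hy : y ^ 2 + A = -1) (ω : L) (hω : ω ^ 2 = -algebraMap K L A)
    (hσ : C.σ ω = -ω) : (algebraMap K L y + ω) * C.σ (algebraMap K L y + ω) = -1 := by
  rw [map_add, C.fixK, hσ]
  have h2 : algebraMap K L (y ^ 2 + A) = algebraMap K L (-1) := by rw [hy]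
  rw [map_add, map_pow, map_neg, map_one] at h2
  linear_combination h2 - hω

theorem quadConj_omega (K : Type u) [Field K] [CharZero K] (a : K)
    [Fact (∀ r : K, r ^ 2 ≠ a + 0 * r)] :
    (quadConj K a).σ (QuadraticAlgebra.omega : QuadraticAlgebra K a 0) =
      -(QuadraticAlgebra.omega : QuadraticAlgebra K a 0) := by
  change star (QuadraticAlgebra.omega : QuadraticAlgebra K a 0) =
    -(QuadraticAlgebra.omega : QuadraticAlgebra K a 0)
  ext
  · simp
  · simp

theorem omega_sq (K : Type u) [Field K] (a : K) :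
    (QuadraticAlgebra.omega : QuadraticAlgebra K (-a) 0) ^ 2 =
      -algebraMap K (QuadraticAlgebra K (-a) 0) a := by
  rw [sq, QuadraticAlgebra.omega_mul_omega_eq_algebraMap]
  simp

/-- The diagonal bound for nonreal fields of transcendence degree at most `i` over a real closed
field in which `-1` is a sum of `2 ^ s` squares. -/
theorem diag_main (hF : FTA.{u, v}) (hR : Root.{v}) (hZ : CZero.{u}) (hA : CAlg.{u})
    (hS : CSimple.{u}) (i : ℕ) : ∀ (s : ℕ) (R : Type v) (K : Type u) [Field R] [IsRealClosed R]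
    [Field K] [Algebra R K], Algebra.trdeg R K ≤ (i : Cardinal.{u}) →
    SS K (2 ^ s) (-1) → ∀ d, 1 ≤ d → DiagBound K d (Phi i s d) := by
  intro s
  induction s with
  | zero =>
    intro R K _ _ _ _ htr hy d hd
    obtain ⟨y, hy⟩ := hy
    have hI : (y 0) ^ 2 = -1 := by simpa using hy
    exact (level_one hF hZ hA hS R K i htr (y 0) hI).diag hd
  | succ s ih =>
    intro R K _ _ _ _ htr hy d hd
    have hcharR := charZero_of_rc R
    have hcharK : CharZero K := charZero_of_injective_algebraMap (algebraMap R K).injective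
    have hlt : 2 ^ (s + 1) - 1 < 2 ^ (s + 1) := Nat.sub_lt (by positivity) one_pos
    obtain ⟨y₀, A, hy1, hAs⟩ : ∃ y A : K, y ^ 2 + A = -1 ∧
        SS K (2 ^ (s + 1) - 1) A := by
      have h1 : SS K (1 + (2 ^ (s + 1) - 1)) (-1) := by
        rw [Nat.add_sub_cancel' Nat.one_le_two_pow]
        exact hy
      obtain ⟨p, q, hpq, ⟨u, hu⟩, hq⟩ := h1.split
      refine ⟨u 0, q, ?_, hq⟩
      have hu' : u 0 ^ 2 = p := by simpa using hu
      rw [hu', hpq]
    by_cases hsq : ∃ b : K, b ^ 2 = -A
    · -- `-1` is a sum of `2 ^ (s + 1) - 1` squares in `K` already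
      obtain ⟨b, hb⟩ := hsq
      have hy' : SS K (2 ^ s) (-1) := by
        by_cases hA0 : A = 0
        · have h2 : SS K 1 (-1) := by
            have := SS.sq y₀
            rwa [show y₀ ^ 2 = -1 by rw [← hy1, hA0, add_zero]] at this
          exact h2.mono Nat.one_le_two_pow
        · exact SS.halve hlt (SS.up A hAs hA0 b (by simpa using hb))
      exact (ih R K htr hy' d hd).mono hd (Phi_le_succ i s hd)
    · push Not at hsq
      have hfact : Fact (∀ r : K, r ^ 2 ≠ -A + 0 * r) := ⟨fun r h => hsq r (by simpa using h)⟩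
      have hA0 : A ≠ 0 := by
        intro h0
        exact hsq 0 (by rw [h0]; simp)
      have htrL : Algebra.trdeg R (QuadraticAlgebra K (-A) 0) ≤ (i : Cardinal.{u}) := by
        have hadd := trdeg_add_eq R K (A := QuadraticAlgebra K (-A) 0)
        have h0 : Algebra.trdeg K (QuadraticAlgebra K (-A) 0) = 0 := trdeg_eq_zero
        rw [h0, add_zero] at hadd
        rw [← hadd]
        exact htr
      have hdiag := ih R (QuadraticAlgebra K (-A) 0) htrL
        (SS.halve hlt (SS.up A hAs hA0 _ (omega_sq K A)))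
      have hρ := (quadConj K (-A)).norm_neg_one y₀ A hy1 _ (omega_sq K A)
        (quadConj_omega K (-A))
      refine (quadConj K (-A)).descent _ hρ (fun e => Phi i s e) (fun e he => hdiag e he) ?_ hd
      intro c hc
      obtain ⟨r, hr⟩ := hR R c hc
      refine ⟨algebraMap R K r, ?_⟩
      have := congrArg (algebraMap R K) hr
      rw [map_sum, map_zero] at this
      rw [← this]
      refine Finset.sum_congr rfl fun b _ => ?_
      simp

theorem exists_mono {K : Type u} [Field K] {n : ℕ} (e : ℕ) (m : Fin n →₀ ℕ) (hm : m.degree = e) :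
    ∃ B : MultilinearMap K (fun _ : Fin e => (Fin n → K)) K, ∀ x : Fin n → K,
      B (fun _ => x) = ∏ i, x i ^ m i := by
  classical
  obtain ⟨s, hs⟩ : ∃ s : List (Fin n), (s : Multiset (Fin n)) = Finsupp.toMultiset m :=
    ⟨(Finsupp.toMultiset m).toList, Multiset.coe_toList _⟩
  have hlen : s.length = e := by
    have h1 := congrArg Multiset.card hs
    rw [Finsupp.card_toMultiset] at h1
    rw [← hm]
    exact h1
  subst hlen
  refine ⟨(MultilinearMap.mkPiAlgebra K (Fin s.length) K).compLinearMap
    (fun l => LinearMap.proj (s.get l)), fun x => ?_⟩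
  have h2 : (Multiset.map x (Finsupp.toMultiset m)).prod = ∏ i, x i ^ m i := by
    rw [Finsupp.toMultiset_map, Finsupp.prod_toMultiset, Finsupp.prod_mapDomain_index]
    · rw [Finsupp.prod_fintype]
      intro i
      simp
    · simp
    · intro b k k'
      exact pow_add _ _ _
  rw [← h2, ← hs, Multiset.map_coe, Multiset.prod_coe]
  simp [Fin.prod_univ_fun_getElem]

/-- homogeneous polynomials are diagonal restrictions of multilinear maps -/
theorem exists_multilinear {K : Type u} [Field K] {n e : ℕ} (f : MvPolynomial (Fin n) K)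
    (hf : f.IsHomogeneous e) :
    ∃ B : MultilinearMap K (fun _ : Fin e => (Fin n → K)) K, ∀ x : Fin n → K,
      MvPolynomial.eval x f = B (fun _ => x) := by
  classical
  have hmon : ∀ m : Fin n →₀ ℕ, ∃ B : MultilinearMap K (fun _ : Fin e => (Fin n → K)) K,
      m.degree = e → ∀ x : Fin n → K, B (fun _ => x) = ∏ i, x i ^ m i := by
    intro m
    by_cases hm : m.degree = e
    · obtain ⟨B, hB⟩ := exists_mono (K := K) e m hm
      exact ⟨B, fun _ => hB⟩
    · exact ⟨0, fun h => absurd h hm⟩
  choose B hB using hmon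
  refine ⟨∑ m ∈ f.support, f.coeff m • B m, fun x => ?_⟩
  rw [MvPolynomial.eval_eq', sum_apply]
  refine Finset.sum_congr rfl fun m hm => ?_
  have hme : m.degree = e := by
    have := hf (MvPolynomial.mem_support_iff.1 hm)
    rw [← this, Finsupp.degree_eq_weight_one]
    rfl
  rw [smul_apply, hB m hme x, smul_eq_mul]

/-- Pfister: in a nonreal field of transcendence degree at most `i` over a real closed field,
`-1` is a sum of `2 ^ i` squares. -/
theorem level_bound (hF : FTA.{u, v}) (hZ : CZero.{u}) (hA : CAlg.{u}) (hS : CSimple.{u})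
    (R : Type v) (K : Type u) [Field R] [IsRealClosed R] [Field K] [Algebra R K] (i : ℕ)
    (htr : Algebra.trdeg R K ≤ (i : Cardinal.{u})) (hK : IsSumSq (-1 : K)) :
    SS K (2 ^ i) (-1) := by
  classical
  have hcharR := charZero_of_rc R
  have hcharK : CharZero K := charZero_of_injective_algebraMap (algebraMap R K).injective
  by_cases hsq : ∃ b : K, b ^ 2 = -1
  · obtain ⟨b, hb⟩ := hsq
    have := SS.sq b
    rw [hb] at this
    exact this.mono Nat.one_le_two_pow
  · push Not at hsq
    have hfact : Fact (∀ r : K, r ^ 2 ≠ -1 + 0 * r) := ⟨fun r h => hsq r (by simpa using h)⟩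
    have htrL : Algebra.trdeg R (QuadraticAlgebra K (-1) 0) ≤ (i : Cardinal.{u}) := by
      have hadd := trdeg_add_eq R K (A := QuadraticAlgebra K (-1) 0)
      have h0 : Algebra.trdeg K (QuadraticAlgebra K (-1) 0) = 0 := trdeg_eq_zero
      rw [h0, add_zero] at hadd
      rw [← hadd]
      exact htr
    have hω : (QuadraticAlgebra.omega : QuadraticAlgebra K (-1) 0) ^ 2 = -1 := by
      rw [omega_sq, map_one]
    have hL : DiagBound (QuadraticAlgebra K (-1) 0) 2 (2 ^ i + 1) :=
      (level_one hF hZ hA hS R (QuadraticAlgebra K (-1) 0) i htrL _ hω).diag (by norm_num)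
    obtain ⟨m, y, hy⟩ := SS.of_isSumSq hK
    rw [SS.iff_D, ← hy]
    exact (quadConj K (-1)).sum_squares _ hω (quadConj_omega K (-1)) i hL m y
      (List.replicate i 1) (by simp) (by
        intro a ha
        rw [List.eq_of_mem_replicate ha]
        exact one_ne_zero)

/-- Diagonal forms, from the packets. -/
theorem final_diag (hF : FTA.{u, v}) (hR : Root.{v}) (hZ : CZero.{u}) (hA : CAlg.{u})
    (hS : CSimple.{u}) (i : ℕ) (R : Type v) (K : Type u) [Field R] [IsRealClosed R] [Field K]
    [Algebra R K] (htr : Algebra.trdeg R K ≤ (i : Cardinal.{u})) (hK : IsSumSq (-1 : K)) (d : ℕ)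
    (hd : 1 ≤ d) : DiagBound K d (Phi i i d) :=
  diag_main hF hR hZ hA hS i i R K htr (level_bound hF hZ hA hS R K i htr hK) d hd

/-- The final statement, from the packets. -/
theorem final (hF : FTA.{u, v}) (hR : Root.{v}) (hZ : CZero.{u}) (hA : CAlg.{u})
    (hS : CSimple.{u}) (hB : Brauer.{u}) (i r d : ℕ) :
    ∃ N : ℕ, ∀ (R : Type v) (K : Type u) [Field R] [IsRealClosed R] [Field K] [Algebra R K],
      Algebra.trdeg R K ≤ (i : Cardinal.{u}) → IsSumSq (-1 : K) →
      ∀ n ≥ N, ∀ f : Fin r → MvPolynomial (Fin n) K,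
        (∀ j, ∃ e, 1 ≤ e ∧ e ≤ d ∧ (f j).IsHomogeneous e) →
          ∃ a : Fin n → K, a ≠ 0 ∧ ∀ j, MvPolynomial.eval a (f j) = 0 := by
  obtain ⟨N, hN⟩ := hB (fun e => Phi i i e) d r
  refine ⟨N, ?_⟩
  intro R K _ _ _ _ htr hK n hn f hf
  choose e he1 he2 he3 using hf
  choose B hBf using fun j => exists_multilinear (f j) (he3 j)
  obtain ⟨a, ha, haB⟩ := hN K (fun e he => final_diag hF hR hZ hA hS i R K htr hK e he)
    (Fin n → K) e B (fun j => ⟨he1 j, he2 j⟩) (by simpa using hn)
  exact ⟨a, ha, fun j => by rw [hBf, haB]⟩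

end Helper70.Lang
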