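import Pool.Agent.Helper70.Lang.Defs

/-!
Statements of the packets of MP_c7dfba_nt as propositions (so that they can be cited before they
are proved).
-/

namespace Helper70.Lang

open scoped BigOperators

universe u v

/-- Packet 1: the fundamental theorem of algebra for real closed fields. -/
def FTA : Prop :=
  ∀ (R : Type v) [Field R] [IsRealClosed R] (K : Type u) [Field K] [Algebra R K] (I : K),
    I ^ 2 = -1 → IsAlgClosed (IntermediateField.adjoin R ({I} : Set K))

/-- Packet 1, second part: irreducible polynomials over a real closed field have degree at most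
two. -/
def Irr2 : Prop :=
  ∀ (R : Type v) [Field R] [IsRealClosed R] (p : Polynomial R), Irreducible p → p.natDegree ≤ 2

/-- Packet 2: the polynomial `∑ b, (2c choose 2b) (2b choose b) (-t)^b` has a root `t = s^2` in
every real closed field. -/
def Root : Prop :=
  ∀ (R : Type v) [Field R] [IsRealClosed R] (c : ℕ), 1 ≤ c →
    ∃ s : R, ∑ b ∈ Finset.range (c + 1),
      ((2 * c).choose (2 * b) : R) * ((2 * b).choose b : R) * (-(s ^ 2)) ^ b = 0

/-- Packet 3: algebraically closed fields are `C_0`. -/
def CZero : Prop := ∀ (k : Type u) [Field k] [IsAlgClosed k], CProp k 0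

/-- Packet 4, first part: algebraic extensions of `C_j`-fields are `C_j`-fields. -/
def CAlg : Prop :=
  ∀ (F : Type u) (K : Type u) [Field F] [Field K] [Algebra F K] [Algebra.IsAlgebraic F K] (j : ℕ),
    CProp F j → CProp K j

/-- Packet 4, second part: simple extensions of `C_j`-fields are `C_{j+1}`-fields. -/
def CSimple : Prop :=
  ∀ (F : Type u) (K : Type u) [Field F] [Field K] [Algebra F K] (t : K) (j : ℕ),
    CProp F j → CProp (IntermediateField.adjoin F ({t} : Set K)) (j + 1)

/-- Packet 5: Brauer's theorem. -/
def Brauer : Prop :=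
  ∀ (φ : ℕ → ℕ) (d r : ℕ), ∃ N : ℕ, ∀ (K : Type u) [Field K],
    (∀ e, 1 ≤ e → DiagBound K e (φ e)) → SysBound K d r N

end Helper70.Lang
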